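import Pool.Agent.helper91.RB.Spec3

/-!
# Row rb:AM3: principal invariant divisors
-/

set_option autoImplicit false

namespace Pool.Agent.RB

open NumberField IsDedekindDomain Module
open scoped nonZeroDivisors Real Classical

section

variable (K : Type) [Field K] [NumberField K]

/-- the divisor of an element -/
noncomputable def AM3_div (hORD : ORD_stmt) : Additive Kˣ →+ Dv K where
  toFun x := Finsupp.ofSupportFinite (fun P => ord P ((x.toMul : Kˣ) : K))
    ((hORD K).1 _ (Units.ne_zero _))
  map_zero' := by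
    ext P
    exact ord_one P
  map_add' x y := by
    ext P
    exact ord_mul P (Units.ne_zero _) (Units.ne_zero _)

theorem AM3_div_apply (hORD : ORD_stmt) (x : Additive Kˣ) (P : HOS K) :
    AM3_div K hORD x P = ord P ((x.toMul : Kˣ) : K) := rfl

variable {K}

/-- the elements with invariant divisor -/
def AM3_A (c : K ≃+* K) : Subgroup Kˣ where
  carrier := {y | ∀ P, ord (act c P) (y : K) = ord P (y : K)}
  one_mem' := fun P => by rw [Units.val_one, ord_one, ord_one]
  mul_mem' := by
    intro a b ha hb P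
    rw [Units.val_mul, ord_mul _ a.ne_zero b.ne_zero, ord_mul _ a.ne_zero b.ne_zero, ha P, hb P]
  inv_mem' := by
    intro a ha P
    rw [Units.val_inv_eq_inv_val, ord_inv, ord_inv, ha P]

/-- the units as elements of `K` -/
noncomputable def AM3_i (K : Type) [Field K] [NumberField K] : (𝓞 K)ˣ →* Kˣ :=
  Units.map (algebraMap (𝓞 K) K : 𝓞 K →* K)

theorem AM3_i_apply (u : (𝓞 K)ˣ) : ((AM3_i K u : Kˣ) : K) = (u : K) := rfl

theorem AM3_i_inj : Function.Injective (AM3_i K) := by
  intro u v huv
  have h1 : ((AM3_i K u : Kˣ) : K) = ((AM3_i K v : Kˣ) : K) := by rw [huv]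
  rw [AM3_i_apply, AM3_i_apply] at h1
  exact Units.ext (RingOfIntegers.ext h1)

/-- `y ↦ y / c y` -/
noncomputable def AM3_g (c : K ≃+* K) : Kˣ →* Kˣ :=
  MonoidHom.id Kˣ / Units.map (c : K →* K)

omit [NumberField K] in
theorem AM3_g_apply (c : K ≃+* K) (y : Kˣ) : ((AM3_g c y : Kˣ) : K) = (y : K) / c (y : K) := by
  unfold AM3_g
  rw [MonoidHom.div_apply, Units.val_div_eq_div_val]
  rfl

end

theorem AM3 (hORD : ORD_stmt) (hCCJ : CCJ_stmt) (hH90 : H90_stmt) : AM3_stmt := by
  intro k K _ _ _ _ _ _ _ _ c hc1 hck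
  obtain ⟨hc, hcc, -, hfix⟩ := hCCJ k K c hc1 hck
  obtain ⟨-, -, -, hunit, hunit0, hact, hrefl, htrans, hunder⟩ := hORD K
  -- the group of the elements from `k`
  let kx : Subgroup Kˣ := (Units.map (algebraMap k K : k →* K)).range
  let U : Subgroup Kˣ := (AM3_i K).range
  have hactinv : ∀ P : HOS K, act c (act c P) = P := by
    intro P
    rw [← htrans]
    have : c.trans c = RingEquiv.refl K := by
      ext x
      exact hcc x
    rw [this]
    exact hrefl P
  have hconj0 : ∀ y : K, (∀ P, ord (act c P) y = ord P y) → ∀ P, ord P (c y) = ord P y := by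
    intro y hy P
    have h1 := (hact c (act c P) y).2
    rw [hactinv] at h1
    rw [h1]
    exact hy P
  have hconj1 : ∀ y : K, (∀ P, ord P (c y) = ord P y) → ∀ P, ord (act c P) y = ord P y := by
    intro y hy P
    rw [← (hact c P y).2]
    exact (hy (act c P)).symm
  have hkA : kx ≤ AM3_A c := by
    rintro _ ⟨x, rfl⟩ P
    refine hconj1 _ (fun P => ?_) P
    show ord P (c (algebraMap k K (x : k))) = ord P (algebraMap k K (x : k))
    rw [hck]
  have hUA : U ≤ AM3_A c := by
    rintro _ ⟨u, rfl⟩ P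
    rw [AM3_i_apply, hunit0, hunit0]
  -- the divisor side
  have h1 : Pr K ⊓ Inv c = (Subgroup.toAddSubgroup (AM3_A c)).map (AM3_div K hORD) := by
    ext D
    constructor
    · rintro ⟨⟨x, hx, h2⟩, h3⟩
      refine ⟨Additive.ofMul (Units.mk0 x hx), ?_, ?_⟩
      · show ∀ P, ord (act c P) x = ord P x
        intro P
        rw [← h2, ← h2]
        exact h3 P
      · ext P
        exact (h2 P).symm
    · rintro ⟨x, hx, rfl⟩
      refine ⟨⟨((x.toMul : Kˣ) : K), Units.ne_zero _, fun P => rfl⟩, fun P => ?_⟩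
      exact hx P
  have h2 : Pk K k = (Subgroup.toAddSubgroup kx).map (AM3_div K hORD) := by
    ext D
    constructor
    · rintro ⟨x, hx, h2⟩
      refine ⟨Additive.ofMul (Units.map (algebraMap k K : k →* K) (Units.mk0 x hx)), ?_, ?_⟩
      · exact ⟨Units.mk0 x hx, rfl⟩
      · ext P
        exact (h2 P).symm
    · rintro ⟨x, ⟨y, hy⟩, rfl⟩
      refine ⟨(y : k), y.ne_zero, fun P => ?_⟩
      rw [AM3_div_apply]
      have h3 : ((x.toMul : Kˣ) : K) = algebraMap k K (y : k) := by
        have h4 : (Units.map (algebraMap k K : k →* K) y) = (x.toMul : Kˣ) := hy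
        rw [← h4]
        rfl
      rw [h3]
  have h3 : (AM3_div K hORD).ker = Subgroup.toAddSubgroup U := by
    ext x
    rw [AddMonoidHom.mem_ker]
    constructor
    · intro hx
      obtain ⟨u, hu⟩ := hunit ((x.toMul : Kˣ) : K) (Units.ne_zero _) (fun P => by
        rw [← AM3_div_apply K hORD, hx]
        rfl)
      exact ⟨u, Units.ext hu⟩
    · rintro ⟨u, hu⟩
      ext P
      rw [AM3_div_apply]
      have h4 : (AM3_i K u) = (x.toMul : Kˣ) := hu
      rw [← h4, AM3_i_apply, hunit0]
      rfl
  refine ⟨?_, ?_⟩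
  · rw [h1, h2]
    exact AddSubgroup.map_mono (Subgroup.toAddSubgroup.monotone hkA)
  -- the side of the torsion group
  have h5 : (AM3_g c).ker = kx := by
    ext y
    rw [MonoidHom.mem_ker]
    constructor
    · intro hy
      have h6 : (y : K) / c (y : K) = 1 := by
        rw [← AM3_g_apply, hy]
        rfl
      have h7 : c (y : K) ≠ 0 := (map_ne_zero c).2 y.ne_zero
      rw [div_eq_one_iff_eq h7] at h6
      obtain ⟨x, hx⟩ := hfix (y : K) h6.symm
      have hx0 : x ≠ 0 := by
        rintro rfl
        rw [map_zero] at hx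
        exact y.ne_zero hx
      exact ⟨Units.mk0 x hx0, Units.ext hx.symm⟩
    · rintro ⟨x, rfl⟩
      apply Units.ext
      rw [AM3_g_apply]
      show algebraMap k K (x : k) / c (algebraMap k K (x : k)) = 1
      rw [hck, div_self]
      exact (map_ne_zero _).2 x.ne_zero
  have h6 : (AM3_A c).map (AM3_g c) = (Units.torsion K).map (AM3_i K) := by
    ext z
    constructor
    · rintro ⟨y, hy, rfl⟩
      have hy' : ∀ P, ord P (c (y : K)) = ord P (y : K) := hconj0 _ hy
      have h7 : c (y : K) ≠ 0 := (map_ne_zero c).2 y.ne_zero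
      obtain ⟨u, hu⟩ := hunit ((y : K) / c (y : K)) (div_ne_zero y.ne_zero h7) (fun P => by
        rw [div_eq_mul_inv, ord_mul P y.ne_zero (inv_ne_zero h7), ord_inv, hy' P]
        ring)
      refine ⟨u, ?_, ?_⟩
      · show u ∈ Units.torsion K
        rw [Units.mem_torsion]
        intro w
        rw [hu, map_div₀, hc, IsCMField.infinitePlace_complexConj]
        exact div_self ((map_ne_zero w).2 y.ne_zero)
      · apply Units.ext
        rw [AM3_i_apply, AM3_g_apply, hu]
    · rintro ⟨ζ, hζ, rfl⟩
      have h7 : (ζ : K) * c (ζ : K) = 1 := by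
        rw [hc, IsCMField.complexConj_torsion K ⟨ζ, hζ⟩]
        exact mul_inv_cancel₀ (Units.ne_zero (AM3_i K ζ))
      obtain ⟨y, hy0, hy⟩ := hH90 k K c hc1 hck (ζ : K) h7
      refine ⟨Units.mk0 y hy0, ?_, ?_⟩
      · show ∀ P, ord (act c P) y = ord P y
        refine hconj1 y fun P => ?_
        have h8 := hunit0 ζ P
        have h9 : c y ≠ 0 := (map_ne_zero c).2 hy0
        rw [hy, div_eq_mul_inv, ord_mul P hy0 (inv_ne_zero h9), ord_inv] at h8
        linarith
      · apply Units.ext
        rw [AM3_g_apply, AM3_i_apply, hy]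
        rfl
  have h7 : U.map (AM3_g c) =
      (((IsCMField.unitsMulComplexConjInv K).range).map (Units.torsion K).subtype).map
        (AM3_i K) := by
    have h8 : (AM3_g c).comp (AM3_i K) =
        (AM3_i K).comp ((Units.torsion K).subtype.comp (IsCMField.unitsMulComplexConjInv K)) := by
      ext u
      rw [MonoidHom.comp_apply, AM3_g_apply, MonoidHom.comp_apply, MonoidHom.comp_apply,
        AM3_i_apply, AM3_i_apply, hc]
      simp [IsCMField.unitsMulComplexConjInv_apply, div_eq_mul_inv]
    show ((AM3_i K).range).map (AM3_g c) = _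
    rw [← MonoidHom.range_comp, h8, MonoidHom.range_comp, MonoidHom.range_comp]
  have h8 : (Pk K k).relIndex (Pr K ⊓ Inv c) = (kx ⊔ U).relIndex (AM3_A c) := by
    rw [h1, h2, AddSubgroup.relIndex_map_map, h3, ← map_sup, ← map_sup,
      Subgroup.relIndex_toAddSubgroup, sup_of_le_left hUA]
  have h9 : (U.map (AM3_g c)).relIndex ((AM3_A c).map (AM3_g c)) = (kx ⊔ U).relIndex (AM3_A c) := by
    rw [Subgroup.relIndex_map_map, h5, sup_of_le_left hkA, sup_comm]
  have h10 : (U.map (AM3_g c)).relIndex ((AM3_A c).map (AM3_g c))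
      = (IsCMField.unitsMulComplexConjInv K).range.index := by
    have h11 : (Units.torsion K).map (AM3_i K) =
        ((⊤ : Subgroup (Units.torsion K)).map (Units.torsion K).subtype).map (AM3_i K) := by
      rw [← MonoidHom.range_eq_map, Subgroup.range_subtype]
    rw [h6, h7, h11, Subgroup.relIndex_map_map_of_injective _ _ AM3_i_inj,
      Subgroup.relIndex_map_map_of_injective _ _ (Subgroup.subtype_injective _),
      Subgroup.relIndex_top_right]
  rw [h8, ← h9, h10, mul_comm]
  exact IsCMField.indexRealUnits_mul_eq K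

end Pool.Agent.RB
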