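import Pool.Agent.helper91.RB.Spec1

/-!
# Row rb:WFE: analytic continuation of the Mellin transforms of the averaged theta functions
-/

set_option autoImplicit false

namespace Pool.Agent.RB

open NumberField NumberField.InfinitePlace NumberField.Units NumberField.Units.dirichletUnitTheorem
open MeasureTheory Filter Topology Module
open scoped nonZeroDivisors Real Classical

theorem WFE_top (hFJD : FJD_stmt) (K : Type) [Field K] [NumberField K] (J : FI K) (hJ : J ≠ 0)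
    (r : ℝ) :
    (fun y : ℝ => ((fJ K (J : Submodule (𝓞 K) K) y : ℝ) : ℂ) - ((vD K : ℝ) : ℂ))
      =O[atTop] (fun y : ℝ => y ^ r) := by
  obtain ⟨C, c, hc, h⟩ := (hFJD K J hJ).1
  have h1 : (fun y : ℝ => ((fJ K (J : Submodule (𝓞 K) K) y : ℝ) : ℂ) - ((vD K : ℝ) : ℂ))
      =O[atTop] (fun y : ℝ => Real.exp (-c * y)) := by
    refine Asymptotics.IsBigO.of_bound C ?_
    filter_upwards [eventually_ge_atTop (1 : ℝ)] with y hy
    rw [← Complex.ofReal_sub, Complex.norm_real, Real.norm_eq_abs, Real.norm_eq_abs, Real.abs_exp]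
    exact h y hy
  exact h1.trans (isLittleO_exp_neg_mul_rpow_atTop hc r).isBigO

theorem WFE_int (hFJD : FJD_stmt) (K : Type) [Field K] [NumberField K] (J : FI K) (hJ : J ≠ 0) :
    LocallyIntegrableOn (fun y : ℝ => ((fJ K (J : Submodule (𝓞 K) K) y : ℝ) : ℂ))
      (Set.Ioi 0) := by
  refine ContinuousOn.locallyIntegrableOn ?_ measurableSet_Ioi
  exact Complex.continuous_ofReal.comp_continuousOn (hFJD K J hJ).2

theorem WFE_eps (K : Type) [Field K] [NumberField K] (J : FI K) (hJ : J ≠ 0) :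
    Real.sqrt |(discr K : ℝ)| * (FractionalIdeal.absNorm J : ℝ) ≠ 0 := by
  have h1 : (discr K : ℝ) ≠ 0 := by exact_mod_cast discr_ne_zero K
  have h2 : (FractionalIdeal.absNorm J : ℝ) ≠ 0 := by
    have : FractionalIdeal.absNorm J ≠ 0 := by
      rwa [Ne, FractionalIdeal.absNorm_eq_zero_iff]
    exact_mod_cast this
  exact mul_ne_zero (Real.sqrt_ne_zero'.mpr (abs_pos.mpr h1)) h2

/-- The weak FE pair of the ideal `J`. -/
noncomputable def WFE_pair (hDUA : DUA_stmt) (hFJE : FJE_stmt) (hFJD : FJD_stmt)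
    (K : Type) [Field K] [NumberField K] (J : FI K) (hJ : J ≠ 0) : WeakFEPair ℂ where
  f y := ((fJ K (J : Submodule (𝓞 K) K) y : ℝ) : ℂ)
  g y := ((fJ K (du K J : Submodule (𝓞 K) K) y : ℝ) : ℂ)
  k := (finrank ℚ K : ℝ) / 2
  ε := (((Real.sqrt |(discr K : ℝ)| * (FractionalIdeal.absNorm J : ℝ))⁻¹ : ℝ) : ℂ)
  f₀ := ((vD K : ℝ) : ℂ)
  g₀ := ((vD K : ℝ) : ℂ)
  hf_int := WFE_int hFJD K J hJ
  hg_int := WFE_int hFJD K (du K J) (hDUA K J hJ).1
  hk := by
    have : (0 : ℝ) < (finrank ℚ K : ℝ) := by exact_mod_cast finrank_pos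
    positivity
  hε := by
    rw [Complex.ofReal_ne_zero]
    exact inv_ne_zero (WFE_eps K J hJ)
  h_feq x hx := by
    rw [hFJE K J hJ x hx, smul_eq_mul, ← Complex.ofReal_mul, ← Complex.ofReal_mul]
  hf_top r := WFE_top hFJD K J hJ r
  hg_top r := WFE_top hFJD K (du K J) (hDUA K J hJ).1 r

theorem WFE_ext (P Q : WeakFEPair ℂ) (h1 : P.f = Q.f) (h2 : P.g = Q.g) (h3 : P.k = Q.k)
    (h4 : P.ε = Q.ε) (h5 : P.f₀ = Q.f₀) (h6 : P.g₀ = Q.g₀) : P = Q := by
  cases P
  cases Q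
  simp only at h1 h2 h3 h4 h5 h6
  subst h1 h2 h3 h4 h5 h6
  rfl

theorem WFE_symm (hDUA : DUA_stmt) (hFJE : FJE_stmt) (hFJD : FJD_stmt)
    (K : Type) [Field K] [NumberField K] (J : FI K) (hJ : J ≠ 0) :
    (WFE_pair hDUA hFJE hFJD K J hJ).symm
      = WFE_pair hDUA hFJE hFJD K (du K J) (hDUA K J hJ).1 := by
  obtain ⟨h0, h1, h2, h3⟩ := hDUA K J hJ
  have hd : Real.sqrt |(discr K : ℝ)| * Real.sqrt |(discr K : ℝ)| = |(discr K : ℝ)| :=
    Real.mul_self_sqrt (abs_nonneg _)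
  have he : ((Real.sqrt |(discr K : ℝ)| * (FractionalIdeal.absNorm J : ℝ))⁻¹)⁻¹
      = (Real.sqrt |(discr K : ℝ)| * (FractionalIdeal.absNorm (du K J) : ℝ))⁻¹ := by
    rw [inv_inv]
    refine eq_inv_of_mul_eq_one_left ?_
    calc Real.sqrt |(discr K : ℝ)| * (FractionalIdeal.absNorm J : ℝ)
          * (Real.sqrt |(discr K : ℝ)| * (FractionalIdeal.absNorm (du K J) : ℝ))
        = (FractionalIdeal.absNorm (du K J) : ℝ) * ((FractionalIdeal.absNorm J : ℝ)
          * (Real.sqrt |(discr K : ℝ)| * Real.sqrt |(discr K : ℝ)|)) := by ring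
      _ = 1 := by rw [hd, h3]
  refine WFE_ext _ _ rfl ?_ rfl ?_ rfl rfl
  · change (fun y => ((fJ K (J : Submodule (𝓞 K) K) y : ℝ) : ℂ))
      = fun y => ((fJ K (du K (du K J) : Submodule (𝓞 K) K) y : ℝ) : ℂ)
    rw [h1]
  · change ((((Real.sqrt |(discr K : ℝ)| * (FractionalIdeal.absNorm J : ℝ))⁻¹ : ℝ) : ℂ))⁻¹
      = (((Real.sqrt |(discr K : ℝ)| * (FractionalIdeal.absNorm (du K J) : ℝ))⁻¹ : ℝ) : ℂ)
    rw [← he, Complex.ofReal_inv ((Real.sqrt |(discr K : ℝ)|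
      * (FractionalIdeal.absNorm J : ℝ))⁻¹)]

theorem WFE (hDUA : DUA_stmt) (hFJE : FJE_stmt) (hFJD : FJD_stmt) : WFE_stmt := by
  intro K _ _
  refine ⟨fun J s => if hJ : J ≠ 0 then
    (WFE_pair hDUA hFJE hFJD K J hJ).Λ ((finrank ℚ K : ℂ) * s / 2) else 0, fun J hJ => ?_⟩
  have hN : (0 : ℝ) < (finrank ℚ K : ℝ) := by exact_mod_cast finrank_pos
  have hN' : (finrank ℚ K : ℂ) ≠ 0 := by exact_mod_cast (finrank_pos (R := ℚ) (M := K)).ne'
  have hk : ((WFE_pair hDUA hFJE hFJD K J hJ).k : ℂ) = (finrank ℚ K : ℂ) / 2 := by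
    simp [WFE_pair]
  refine ⟨?_, ?_, ?_⟩
  · simp only [dif_pos hJ]
    intro s hs
    simp only [Set.mem_compl_iff, Set.mem_insert_iff, Set.mem_singleton_iff, not_or] at hs
    refine DifferentiableAt.differentiableWithinAt ?_
    have h1 : DifferentiableAt ℂ (WFE_pair hDUA hFJE hFJD K J hJ).Λ
        ((finrank ℚ K : ℂ) * s / 2) := by
      refine WeakFEPair.differentiableAt_Λ _ (Or.inl ?_) (Or.inl ?_)
      · exact div_ne_zero (mul_ne_zero hN' hs.1) two_ne_zero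
      · rw [hk]
        intro h
        apply hs.2
        have h2 : (finrank ℚ K : ℂ) * s = (finrank ℚ K : ℂ) * 1 := by
          rw [mul_one]
          exact (div_left_inj' two_ne_zero).mp h
        exact mul_left_cancel₀ hN' h2
    have h2 : DifferentiableAt ℂ (fun s : ℂ => (finrank ℚ K : ℂ) * s / 2) s := by fun_prop
    exact DifferentiableAt.comp s h1 h2
  · intro s hs
    simp only [dif_pos hJ]
    have hre : (WFE_pair hDUA hFJE hFJD K J hJ).k < ((finrank ℚ K : ℂ) * s / 2).re := by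
      have h1 : ((finrank ℚ K : ℂ) * s / 2).re = (finrank ℚ K : ℝ) * s.re / 2 := by
        have : ((finrank ℚ K : ℂ) * s / 2) = (((finrank ℚ K : ℝ) / 2 : ℝ) : ℂ) * s := by
          push_cast
          ring
        rw [this, Complex.re_ofReal_mul]
        ring
      rw [h1]
      change (finrank ℚ K : ℝ) / 2 < _
      nlinarith
    obtain ⟨h1, h2⟩ := WeakFEPair.hasMellin (WFE_pair hDUA hFJE hFJD K J hJ) hre
    have hfun : (fun y : ℝ => ((fJ K (J : Submodule (𝓞 K) K) y - vD K : ℝ) : ℂ) *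
        (y : ℂ) ^ ((finrank ℚ K : ℂ) * s / 2 - 1)) = fun y : ℝ =>
        (y : ℂ) ^ ((finrank ℚ K : ℂ) * s / 2 - 1) • ((WFE_pair hDUA hFJE hFJD K J hJ).f y
          - (WFE_pair hDUA hFJE hFJD K J hJ).f₀) := by
      funext y
      rw [smul_eq_mul, mul_comm]
      simp [WFE_pair]
    constructor
    · rw [hfun]
      exact h1
    · rw [hfun, ← h2]
      rfl
  · intro s hs0 hs1
    simp only [dif_pos hJ, dif_pos (hDUA K J hJ).1]
    have h1 : (finrank ℚ K : ℂ) * (1 - s) / 2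
        = ((WFE_pair hDUA hFJE hFJD K J hJ).k : ℂ) - (finrank ℚ K : ℂ) * s / 2 := by
      rw [hk]
      ring
    rw [h1, WeakFEPair.functional_equation, WFE_symm, smul_eq_mul]
    rfl

end Pool.Agent.RB
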